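import Pool.Agent.Results.MP_f5d5f4_nt.OrderedByConductor
import Pool.Agent.V11326.WO1

/-!
# No congruence modulo any prime `p ≥ 13` with any curve of small bad product, for ALL curves with full two-torsion whose
conductors lie in windows

We consider ALL elliptic curves `E` over `ℚ` with full rational 2-torsion, of whatever height, ordered by the conductor
`N_E`; the number of those with `N_E ≤ X` is of order `X ^ (2 / 3)`. There is `ν > 0` with the following property. Let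
`v_n ≥ 1` be a sequence with exponent of convergence at most `τ` (for example `v_n = 2 ^ n`, `τ = 0`), `ρ ≥ 0`, `θ < 1`.
There is a set `F` of real numbers of Hausdorff dimension at most `(1 - ν + ρ / 12 + τ) / (1 - θ)`, of measure zero if
`ρ / 12 + τ + θ < ν`, such that for all real `β` outside `F` and all large `n` NO such `E`, of whatever height, with
`|N_E ^ (2 / 3) - β v_n| ≤ v_n ^ θ` is congruent modulo any prime `p ≥ 13`, or only has the same `p`-division field, as ANY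
elliptic curve `E₀` over `ℚ` (of whatever height; there are infinitely many of them) for which the product of the primes
`l ≥ 5` dividing the denominator of `j(E₀)` is at most `v_n ^ ρ`.

The proof of the starting result `OrderedByConductor` gives a bound for the number of the curves `E` having such a companion
`E₀`, for all `E₀` at once (`companions`). This is combined with a covering argument.
-/

set_option autoImplicit false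

namespace Pool.Agent.Results.MP_f5d5f4_nt.ConductorWindows

open Filter Topology MeasureTheory
open Pool.Agent.Results.MP_f5d5f4_nt.OrderedByConductor

/-- The exponent of convergence of the sequence `v` is at most `τ`: the sum of the `v_n ^ (-p)` converges for all
`p > τ`. -/
def ExpLe (v : ℕ → ℝ) (τ : ℝ) : Prop := ∀ p : ℝ, τ < p → Summable fun n => (v n) ^ (-p)

/-- The curve `y² = x³ - a x - b`, `q = (a, b)`, has for some prime `p ≥ 13` the same `p`-division field as some elliptic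
curve `y² = x³ + A₀ x + B₀` over `ℚ` for which the product of the primes `l ≥ 5` dividing the denominator of the
`j`-invariant is at most `R`. -/
def HasCompanion (R : ℝ) (q : ℤ × ℤ) : Prop :=
  ∃ (A₀ B₀ : ℚ) (p : ℕ), 4 * A₀ ^ 3 + 27 * B₀ ^ 2 ≠ 0 ∧ (badProduct A₀ B₀ : ℝ) ≤ R ∧ p.Prime ∧ 13 ≤ p ∧
    SameDivisionField p (-(q.1 : ℚ)) (-(q.2 : ℚ)) A₀ B₀

section

open Finset Pool.Agent.H925R.Szpiro Pool.Agent.Y679.Par Pool.Agent.Y679.Cur Pool.Agent.Y679.Jl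
  Pool.Agent.Y679.Fh Pool.Agent.Y673.Loc Pool.Agent.Y673.FM Pool.Agent.Y679.Fz

/-- the curves with a companion of bad product at most `R` -/
def CpU (lam : ℤ × ℤ → ℕ) (R N : ℝ) : Set (ℤ × ℤ) :=
  {q | q ∈ Md lam N ∧ ∃ (A₀ B₀ : ℚ) (p : ℕ), 4 * A₀ ^ 3 + 27 * B₀ ^ 2 ≠ 0 ∧ (R5 (jv A₀ B₀).den : ℝ) ≤ R ∧
    p.Prime ∧ 13 ≤ p ∧ SameF (-(q.1 : ℚ)) (-(q.2 : ℚ)) A₀ B₀ p}

/-- the form of `Pool.Agent.Y679.Fz.Cp_le` for all `E₀` at once -/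
theorem CpU_le : ∃ ν C : ℝ, 0 < ν ∧ 0 < C ∧ ∀ lam : ℤ × ℤ → ℕ,
    (∀ q : ℤ × ℤ, IsMin q.1 q.2 → FullS q.1 q.2 → 1 ≤ lam q) →
    ∀ R : ℝ, 1 ≤ R → ∀ N : ℝ, 1 ≤ N →
    ((CpU lam R N).ncard : ℝ) ≤ C * R ^ ((1 : ℝ) / 12) * N ^ (2 / 3 - ν) := by
  obtain ⟨η, C1, hη, hC1, h1⟩ := H_le (σ := 1 / 12) (by norm_num) (by norm_num)
  obtain ⟨C2, hC2, hup⟩ := Md_up
  refine ⟨min η (1 / 24), 3 * C1 + 3 * C2, lt_min hη (by norm_num), by positivity,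
    fun lam hlam R hR1 N hN => ?_⟩
  obtain ⟨ν, hν⟩ : ∃ ν : ℝ, ν = min η (1 / 24) := ⟨_, rfl⟩
  have hν1 : ν ≤ η := by rw [hν]; exact min_le_left _ _
  have hν2 : ν ≤ 1 / 24 := by rw [hν]; exact min_le_right _ _
  rw [← hν]
  have hR0 : 0 < R := by linarith
  have hN0 : 0 < N := by linarith
  have hRp : 1 ≤ R ^ ((1 : ℝ) / 12) := Real.one_le_rpow hR1 (by norm_num)
  have h2p : (2 : ℝ) ^ ((1 : ℝ) / 12) ≤ 2 := by
    calc (2 : ℝ) ^ ((1 : ℝ) / 12) ≤ (2 : ℝ) ^ (1 : ℝ) :=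
          Real.rpow_le_rpow_of_exponent_le (by norm_num) (by norm_num)
      _ = 2 := Real.rpow_one _
  have hy : 0 < N ^ ((2 : ℝ) / 3 - ν) := by positivity
  have hfin := Md_fin hlam hN
  have hlam1 : ∀ q : ℤ × ℤ, IsMin q.1 q.2 → FullS q.1 q.2 → 1 ≤ (fun _ : ℤ × ℤ => 1) q :=
    fun _ _ _ => le_rfl
  have hN2 : 1 ≤ N ^ ((1 : ℝ) / 2) := Real.one_le_rpow hN (by norm_num)
  have hsmall := hup (fun _ => 1) hlam1 (N ^ ((1 : ℝ) / 2)) hN2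
  have hfin1 := Md_fin hlam1 hN2
  have e1 : (N ^ ((1 : ℝ) / 2)) ^ ((2 : ℝ) / 3) ≤ N ^ ((2 : ℝ) / 3 - ν) := by
    rw [← Real.rpow_mul hN0.le]
    exact Real.rpow_le_rpow_of_exponent_le hN (by norm_num; linarith)
  obtain ⟨K, hK⟩ : ∃ K : ℝ, K = N ^ ((1 : ℝ) / 2) / (2 * R) := ⟨_, rfl⟩
  have hK0 : 0 < K := by rw [hK]; positivity
  have hKp : K ^ (-((1 : ℝ) / 12)) * N ^ ((2 : ℝ) / 3) ≤
      2 * R ^ ((1 : ℝ) / 12) * N ^ ((2 : ℝ) / 3 - ν) := by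
    have e2 : K ^ (-((1 : ℝ) / 12)) = (2 : ℝ) ^ ((1 : ℝ) / 12) * R ^ ((1 : ℝ) / 12) *
        N ^ (-((1 : ℝ) / 24)) := by
      rw [hK, Real.div_rpow (by positivity) (by positivity), ← Real.rpow_mul hN0.le,
        Real.rpow_neg (by positivity : (0 : ℝ) ≤ 2 * R), div_inv_eq_mul,
        Real.mul_rpow (by norm_num) hR0.le]
      rw [show (1 : ℝ) / 2 * -(1 / 12) = -(1 / 24) by norm_num]
      ring
    rw [e2, mul_assoc, ← Real.rpow_add hN0]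
    have e3 : N ^ (-((1 : ℝ) / 24) + 2 / 3) ≤ N ^ ((2 : ℝ) / 3 - ν) :=
      Real.rpow_le_rpow_of_exponent_le hN (by linarith)
    have e4 : (2 : ℝ) ^ ((1 : ℝ) / 12) * R ^ ((1 : ℝ) / 12) ≤ 2 * R ^ ((1 : ℝ) / 12) :=
      mul_le_mul_of_nonneg_right h2p (by positivity)
    exact mul_le_mul e4 e3 (by positivity) (by positivity)
  -- the inclusion
  have hsub : CpU lam R N ⊆ Md (fun _ => 1) (N ^ ((1 : ℝ) / 2)) ∪
      {q : ℤ × ℤ | q ∈ Md lam N ∧ K * (condS q.1 q.2 : ℝ) ^ 2 < ((Hh q : ℤ) : ℝ)} := by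
    rintro q ⟨hq, A₀, B₀, p, hD₀, hR5, hp, hp13, hF⟩
    by_cases hs : (condS q.1 q.2 : ℝ) ≤ N ^ ((1 : ℝ) / 2)
    · left
      refine ⟨hq.1, hq.2.1, ?_⟩
      rw [one_mul]
      exact hs
    · right
      refine ⟨hq, ?_⟩
      rw [not_le] at hs
      have h2 := cube_le hq.1 hq.2.1 hD₀ hp hp13 hF
      have hD := D_pos hq.1 hq.2.1
      have h3 : ((D q.1 q.2).natAbs : ℝ) = ((D q.1 q.2 : ℤ) : ℝ) := by
        have h3 : ((D q.1 q.2).natAbs : ℤ) = D q.1 q.2 := Int.natAbs_of_nonneg hD.le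
        have h4 : (((D q.1 q.2).natAbs : ℤ) : ℝ) = ((D q.1 q.2 : ℤ) : ℝ) := by rw [h3]
        rw [← h4]
        simp
      have h4 : (condS q.1 q.2 : ℝ) ^ 3 ≤ ((Hh q : ℤ) : ℝ) * R := by
        have h5 : ((condS q.1 q.2 ^ 3 : ℕ) : ℝ) ≤
            (((D q.1 q.2).natAbs * R5 (jv A₀ B₀).den : ℕ) : ℝ) := Nat.cast_le.2 h2
        push_cast at h5
        have h6 : ((D q.1 q.2 : ℤ) : ℝ) ≤ ((Hh q : ℤ) : ℝ) := by exact_mod_cast D_le hD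
        have h7 : (((D q.1 q.2).natAbs : ℕ) : ℝ) = ((D q.1 q.2 : ℤ) : ℝ) := h3
        have h8 : (((D q.1 q.2).natAbs : ℕ) : ℝ) ≤ ((Hh q : ℤ) : ℝ) := by rw [h7]; exact h6
        have h9 : (0 : ℝ) ≤ ((Hh q : ℤ) : ℝ) := le_trans (Nat.cast_nonneg _) h8
        have h10 : (0 : ℝ) ≤ (R5 (jv A₀ B₀).den : ℝ) := Nat.cast_nonneg _
        first
          | exact h5.trans (mul_le_mul h8 hR5 h10 h9)
          | (refine h5.trans (mul_le_mul ?_ hR5 h10 h9)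
             simpa [h7] using h6)
      have hc : (0 : ℝ) < (condS q.1 q.2 : ℝ) := by exact_mod_cast condS_pos q.1 q.2
      have h5 : K * R * 2 = N ^ ((1 : ℝ) / 2) := by
        rw [hK]
        field_simp
      have h6 : 2 * K * R * (condS q.1 q.2 : ℝ) ^ 2 < ((Hh q : ℤ) : ℝ) * R := by
        refine lt_of_lt_of_le ?_ h4
        have h7 : 2 * K * R < (condS q.1 q.2 : ℝ) := by
          rw [show 2 * K * R = K * R * 2 by ring, h5]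
          exact hs
        calc 2 * K * R * (condS q.1 q.2 : ℝ) ^ 2
            < (condS q.1 q.2 : ℝ) * (condS q.1 q.2 : ℝ) ^ 2 :=
              mul_lt_mul_of_pos_right h7 (by positivity)
          _ = _ := by ring
      have h7 : 2 * K * (condS q.1 q.2 : ℝ) ^ 2 < ((Hh q : ℤ) : ℝ) := by
        by_contra h
        rw [not_lt] at h
        have := mul_le_mul_of_nonneg_right h hR0.le
        linarith [this, h6, show 2 * K * R * (condS q.1 q.2 : ℝ) ^ 2 =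
          2 * K * (condS q.1 q.2 : ℝ) ^ 2 * R by ring]
      have h8 : 0 < K * (condS q.1 q.2 : ℝ) ^ 2 := by positivity
      linarith [h7, h8]
  have hA : ((CpU lam R N).ncard : ℝ) ≤ ((Md (fun _ => 1) (N ^ ((1 : ℝ) / 2))).ncard : ℝ) +
      (({q : ℤ × ℤ | q ∈ Md lam N ∧
        K * (condS q.1 q.2 : ℝ) ^ 2 < ((Hh q : ℤ) : ℝ)}.ncard : ℕ) : ℝ) := by
    have h2 := Set.ncard_le_ncard hsub (hfin1.union (hfin.subset fun q hq => hq.1))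
    have h3 := Set.ncard_union_le (Md (fun _ => 1) (N ^ ((1 : ℝ) / 2)))
      {q : ℤ × ℤ | q ∈ Md lam N ∧ K * (condS q.1 q.2 : ℝ) ^ 2 < ((Hh q : ℤ) : ℝ)}
    exact_mod_cast h2.trans h3
  have hB : ((Md (fun _ => 1) (N ^ ((1 : ℝ) / 2))).ncard : ℝ) ≤
      C2 * (R ^ ((1 : ℝ) / 12) * N ^ ((2 : ℝ) / 3 - ν)) := by
    refine hsmall.trans (mul_le_mul_of_nonneg_left (e1.trans ?_) hC2.le)
    nlinarith
  rcases le_total 1 K with hK1 | hK1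
  · have h2 := h1 lam hlam N K hN hK1
    have h3 : N ^ ((2 : ℝ) / 3 - η) ≤ N ^ ((2 : ℝ) / 3 - ν) :=
      Real.rpow_le_rpow_of_exponent_le hN (by linarith)
    have h4 : N ^ ((2 : ℝ) / 3 - ν) ≤ R ^ ((1 : ℝ) / 12) * N ^ ((2 : ℝ) / 3 - ν) := by nlinarith
    have h5 : C1 * (K ^ (-((1 : ℝ) / 12)) * N ^ ((2 : ℝ) / 3) + N ^ ((2 : ℝ) / 3 - η)) ≤
        C1 * (2 * R ^ ((1 : ℝ) / 12) * N ^ ((2 : ℝ) / 3 - ν) +
          R ^ ((1 : ℝ) / 12) * N ^ ((2 : ℝ) / 3 - ν)) :=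
      mul_le_mul_of_nonneg_left (add_le_add hKp (h3.trans h4)) hC1.le
    have hRy : 0 < R ^ ((1 : ℝ) / 12) * N ^ ((2 : ℝ) / 3 - ν) := by positivity
    have e9 : (3 * C1 + 3 * C2) * R ^ ((1 : ℝ) / 12) * N ^ ((2 : ℝ) / 3 - ν) =
        3 * (C1 * (R ^ ((1 : ℝ) / 12) * N ^ ((2 : ℝ) / 3 - ν))) +
          3 * (C2 * (R ^ ((1 : ℝ) / 12) * N ^ ((2 : ℝ) / 3 - ν))) := by ring
    have e10 : C1 * (2 * R ^ ((1 : ℝ) / 12) * N ^ ((2 : ℝ) / 3 - ν) +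
          R ^ ((1 : ℝ) / 12) * N ^ ((2 : ℝ) / 3 - ν)) =
        3 * (C1 * (R ^ ((1 : ℝ) / 12) * N ^ ((2 : ℝ) / 3 - ν))) := by ring
    rw [e9]
    have := mul_pos hC2 hRy
    linarith [hA, hB, h2, h5]
  · have h2 : (({q : ℤ × ℤ | q ∈ Md lam N ∧
        K * (condS q.1 q.2 : ℝ) ^ 2 < ((Hh q : ℤ) : ℝ)}.ncard : ℕ) : ℝ) ≤
        ((Md lam N).ncard : ℝ) :=
      Nat.cast_le.2 (Set.ncard_le_ncard (fun q hq => hq.1) hfin)
    have h3 := hup lam hlam N hN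
    have h4 : 1 ≤ K ^ (-((1 : ℝ) / 12)) :=
      Real.one_le_rpow_of_pos_of_le_one_of_nonpos hK0 hK1 (by norm_num)
    have hx : 0 < N ^ ((2 : ℝ) / 3) := by positivity
    have h5 : N ^ ((2 : ℝ) / 3) ≤ 2 * R ^ ((1 : ℝ) / 12) * N ^ ((2 : ℝ) / 3 - ν) := by
      refine le_trans ?_ hKp
      nlinarith
    have h6 := mul_le_mul_of_nonneg_left h5 hC2.le
    have hRy : 0 < R ^ ((1 : ℝ) / 12) * N ^ ((2 : ℝ) / 3 - ν) := by positivity
    have e9 : (3 * C1 + 3 * C2) * R ^ ((1 : ℝ) / 12) * N ^ ((2 : ℝ) / 3 - ν) =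
        3 * (C1 * (R ^ ((1 : ℝ) / 12) * N ^ ((2 : ℝ) / 3 - ν))) +
          3 * (C2 * (R ^ ((1 : ℝ) / 12) * N ^ ((2 : ℝ) / 3 - ν))) := by ring
    have e10 : C2 * (2 * R ^ ((1 : ℝ) / 12) * N ^ ((2 : ℝ) / 3 - ν)) =
        2 * (C2 * (R ^ ((1 : ℝ) / 12) * N ^ ((2 : ℝ) / 3 - ν))) := by ring
    rw [e9]
    have := mul_pos hC1 hRy
    linarith [hA, hB, h2, h3, h6]

end

theorem hlam {f : ℤ × ℤ → ℕ} (hf : Factor f) (q : ℤ × ℤ) : 1 ≤ f q := (hf q).1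

theorem curves_finite {f : ℤ × ℤ → ℕ} (hf : Factor f) {N : ℝ} (hN : 1 ≤ N) : (Curves f N).Finite :=
  Pool.Agent.Y679.Par.Md_fin (fun q _ _ => hlam hf q) hN

/-- the number of the curves with a companion of bad product at most `R`, uniformly in the companion -/
theorem companions : ∃ ν C : ℝ, 0 < ν ∧ 0 < C ∧ ∀ f : ℤ × ℤ → ℕ, Factor f → ∀ R : ℝ, 1 ≤ R → ∀ N : ℝ, 1 ≤ N →
    ({q : ℤ × ℤ | q ∈ Curves f N ∧ HasCompanion R q}.ncard : ℝ) ≤ C * R ^ ((1 : ℝ) / 12) * N ^ (2 / 3 - ν) := by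
  obtain ⟨ν, C, hν, hC, h⟩ := CpU_le
  exact ⟨ν, C, hν, hC, fun f hf R hR N hN => h f (fun q _ _ => hlam hf q) R hR N hN⟩

/-- **Theorem.** -/
theorem result : ∃ ν : ℝ, 0 < ν ∧ ν ≤ 1 ∧ ∀ (f : ℤ × ℤ → ℕ), Factor f → ∀ (v : ℕ → ℝ) (τ ρ θ : ℝ),
    (∀ n, 1 ≤ v n) → 0 ≤ τ → ExpLe v τ → 0 ≤ ρ → θ < 1 →
    ∃ F : Set ℝ, dimH F ≤ ENNReal.ofReal ((1 - ν + ρ / 12 + τ) / (1 - θ)) ∧
      (ρ / 12 + τ + θ < ν → volume F = 0) ∧
      ∀ β : ℝ, β ∉ F → ∃ n₀ : ℕ, ∀ n : ℕ, n₀ ≤ n → ∀ q : ℤ × ℤ, IsMinimal q.1 q.2 → FullTwoTorsion q.1 q.2 →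
        |((f q * Cond6 q.1 q.2 : ℕ) : ℝ) ^ ((2 : ℝ) / 3) - β * v n| ≤ (v n) ^ θ → ¬ HasCompanion ((v n) ^ ρ) q := by
  obtain ⟨ν₀, C, hν₀, hC, h⟩ := companions
  obtain ⟨ν, hν⟩ : ∃ ν : ℝ, ν = min (3 / 2 * ν₀) 1 := ⟨_, rfl⟩
  have hνp : 0 < ν := by rw [hν]; exact lt_min (by positivity) one_pos
  have hν1 : ν ≤ 1 := by rw [hν]; exact min_le_right _ _
  have hν2 : ν ≤ 3 / 2 * ν₀ := by rw [hν]; exact min_le_left _ _
  refine ⟨ν, hνp, hν1, fun f hf v τ ρ θ hv1 hτ hv hρ hθ => ?_⟩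
  obtain ⟨F, hF, hw⟩ := Pool.Agent.V11326.WK.windowsK (E := ℝ)
    (fun n => {q : ℤ × ℤ | (IsMinimal q.1 q.2 ∧ FullTwoTorsion q.1 q.2) ∧ HasCompanion ((v n) ^ ρ) q})
    (fun _ q => ((f q * Cond6 q.1 q.2 : ℕ) : ℝ) ^ ((2 : ℝ) / 3)) (s := 1 - ν + ρ / 12) hv1 hτ hv
    (by linarith [div_nonneg hρ (show (0 : ℝ) ≤ 12 by norm_num)]) hθ (by
    intro A ε hε
    refine ⟨C * ((A : ℝ) + 1), 0, fun n _ => ?_⟩
    have hv1n := hv1 n
    have hv0 : 0 < v n := by linarith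
    have hA : (0 : ℝ) ≤ A := Nat.cast_nonneg A
    have hY : 1 ≤ ((A : ℝ) + 1) * v n := by nlinarith
    have hY0 : 0 < ((A : ℝ) + 1) * v n := by linarith
    obtain ⟨X, hXdef⟩ : ∃ X : ℝ, X = (((A : ℝ) + 1) * v n) ^ ((3 : ℝ) / 2) := ⟨_, rfl⟩
    have hX1 : 1 ≤ X := by
      rw [hXdef]
      exact Real.one_le_rpow hY (by norm_num)
    have hR1 : 1 ≤ (v n) ^ ρ := Real.one_le_rpow hv1n hρ
    have e1 : {q : ℤ × ℤ | q ∈ {q : ℤ × ℤ | (IsMinimal q.1 q.2 ∧ FullTwoTorsion q.1 q.2) ∧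
          HasCompanion ((v n) ^ ρ) q} ∧
        ‖((f q * Cond6 q.1 q.2 : ℕ) : ℝ) ^ ((2 : ℝ) / 3)‖ ≤ ((A : ℝ) + 1) * v n} ⊆
        {q : ℤ × ℤ | q ∈ Curves f X ∧ HasCompanion ((v n) ^ ρ) q} := by
      rintro q ⟨⟨⟨h1, h2⟩, h3⟩, h4⟩
      refine ⟨⟨h1, h2, ?_⟩, h3⟩
      have hc : (0 : ℝ) ≤ ((f q * Cond6 q.1 q.2 : ℕ) : ℝ) := Nat.cast_nonneg _
      rw [Real.norm_eq_abs, abs_of_nonneg (Real.rpow_nonneg hc _)] at h4
      have h5 : (((f q * Cond6 q.1 q.2 : ℕ) : ℝ) ^ ((2 : ℝ) / 3)) ^ ((3 : ℝ) / 2) ≤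
          (((A : ℝ) + 1) * v n) ^ ((3 : ℝ) / 2) :=
        Real.rpow_le_rpow (Real.rpow_nonneg hc _) h4 (by norm_num)
      rw [← Real.rpow_mul hc, show (2 : ℝ) / 3 * (3 / 2) = 1 by norm_num, Real.rpow_one] at h5
      rw [hXdef]
      exact h5
    have hfin2 : {q : ℤ × ℤ | q ∈ Curves f X ∧ HasCompanion ((v n) ^ ρ) q}.Finite :=
      (curves_finite hf hX1).subset fun q hq => hq.1
    refine ⟨hfin2.subset e1, ?_⟩
    have e2 : X ^ ((2 : ℝ) / 3 - ν₀) ≤ ((A : ℝ) + 1) * (v n) ^ (1 - ν) := by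
      have e3 : X ^ ((2 : ℝ) / 3 - ν₀) = (((A : ℝ) + 1) * v n) ^ (1 - 3 / 2 * ν₀) := by
        rw [hXdef, ← Real.rpow_mul hY0.le]
        congr 1
        ring
      rw [e3]
      calc (((A : ℝ) + 1) * v n) ^ (1 - 3 / 2 * ν₀) ≤ (((A : ℝ) + 1) * v n) ^ (1 - ν) :=
            Real.rpow_le_rpow_of_exponent_le hY (by linarith)
        _ = ((A : ℝ) + 1) ^ (1 - ν) * (v n) ^ (1 - ν) := Real.mul_rpow (by positivity) hv0.le
        _ ≤ ((A : ℝ) + 1) * (v n) ^ (1 - ν) := by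
            refine mul_le_mul_of_nonneg_right ?_ (Real.rpow_nonneg hv0.le _)
            calc ((A : ℝ) + 1) ^ (1 - ν) ≤ ((A : ℝ) + 1) ^ (1 : ℝ) :=
                  Real.rpow_le_rpow_of_exponent_le (by linarith) (by linarith)
              _ = (A : ℝ) + 1 := Real.rpow_one _
    have e4 : ((v n) ^ ρ) ^ ((1 : ℝ) / 12) = (v n) ^ (ρ / 12) := by
      rw [← Real.rpow_mul hv0.le]
      congr 1
      ring
    calc ({q : ℤ × ℤ | q ∈ {q : ℤ × ℤ | (IsMinimal q.1 q.2 ∧ FullTwoTorsion q.1 q.2) ∧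
          HasCompanion ((v n) ^ ρ) q} ∧
        ‖((f q * Cond6 q.1 q.2 : ℕ) : ℝ) ^ ((2 : ℝ) / 3)‖ ≤ ((A : ℝ) + 1) * v n}.ncard : ℝ)
        ≤ ({q : ℤ × ℤ | q ∈ Curves f X ∧ HasCompanion ((v n) ^ ρ) q}.ncard : ℝ) :=
          Nat.cast_le.2 (Set.ncard_le_ncard e1 hfin2)
      _ ≤ C * ((v n) ^ ρ) ^ ((1 : ℝ) / 12) * X ^ ((2 : ℝ) / 3 - ν₀) := h f hf _ hR1 X hX1
      _ ≤ C * (v n) ^ (ρ / 12) * (((A : ℝ) + 1) * (v n) ^ (1 - ν)) := by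
          rw [e4]
          exact mul_le_mul_of_nonneg_left e2 (by positivity)
      _ = C * ((A : ℝ) + 1) * ((v n) ^ (ρ / 12) * (v n) ^ (1 - ν)) := by ring
      _ = C * ((A : ℝ) + 1) * (v n) ^ (ρ / 12 + (1 - ν)) := by rw [← Real.rpow_add hv0]
      _ ≤ C * ((A : ℝ) + 1) * (v n) ^ (1 - ν + ρ / 12 + ε) := by
          apply mul_le_mul_of_nonneg_left _ (by positivity)
          exact Real.rpow_le_rpow_of_exponent_le hv1n (by linarith))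
  refine ⟨F, hF, fun hc => Pool.Agent.V11326.WO1.null hF ?_, fun β hβ => ?_⟩
  · have h1 : 0 < 1 - θ := by linarith
    rw [div_lt_iff₀ h1]
    linarith
  · obtain ⟨n₀, hn⟩ := hw β hβ
    refine ⟨n₀, fun n hn1 q h1 h2 h3 h4 => ?_⟩
    refine absurd ?_ (not_le.2 (hn n hn1 q ⟨⟨h1, h2⟩, h4⟩))
    rw [smul_eq_mul, Real.norm_eq_abs, mul_comm (v n)]
    exact h3

end Pool.Agent.Results.MP_f5d5f4_nt.ConductorWindows
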