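import Pool.Agent.Results.MP_f5d5f4_nt.ConductorWindows
import Pool.Agent.V11326.WP

/-!
# No congruence modulo any prime `p ≥ 13` with any curve of smaller bad product, for ALL curves with full two-torsion whose
# conductors are close to powers of a typical base

We consider ALL elliptic curves `E` over `ℚ` with full rational 2-torsion, of whatever height; `N_E` is the conductor (or
`f(E)` times the prime-to-6 part of it, for any function `f` with values between `1` and `2 ^ 8 * 3 ^ 5`). There are `ν, ρ > 0`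
such that for all `lam` with `lam n / log n → ∞` (for example `lam n = n`), all countable sets `U` and all `θ < 1` there is a
set `F` of real numbers of Hausdorff dimension at most `(1 - ν) / (1 - θ)`, of measure zero if `θ < ν`, such that for all
`x > 1` outside `F`, all `β > 0` in `U` and all large `n` NO such `E`, of whatever height, with
`|N_E ^ (2 / 3) - β x ^ lam n| ≤ x ^ (θ lam n)` is congruent modulo any prime `p ≥ 13`, or only has the same `p`-division
field, as ANY elliptic curve `E₀` over `ℚ` for which the product of the primes `l ≥ 5` dividing the denominator of `j(E₀)` is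
at most `N_E ^ ρ`.

The proof combines the count `companions` of `ConductorWindows` (from the starting result `OrderedByConductor`) with the
theorem of helper1 that the powers of almost every base avoid thin sets.
-/

set_option autoImplicit false

namespace Pool.Agent.Results.MP_f5d5f4_nt.ConductorsNearPowers

open MeasureTheory
open Pool.Agent.Results.MP_f5d5f4_nt.OrderedByConductor Pool.Agent.Results.MP_f5d5f4_nt.ConductorWindows

/-- `lam n / log n` tends to infinity (for example `lam n = n`, `n!`). -/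
def Fast (lam : ℕ → ℝ) : Prop := Filter.Tendsto (fun n : ℕ => lam n / Real.log n) Filter.atTop Filter.atTop

/-- `N_E = f(E) Cond6(E)` as a real number. -/
noncomputable def cnd (f : ℤ × ℤ → ℕ) (q : ℤ × ℤ) : ℝ := ((f q * Cond6 q.1 q.2 : ℕ) : ℝ)

theorem cnd_pos {f : ℤ × ℤ → ℕ} (hf : Factor f) (q : ℤ × ℤ) : 0 < cnd f q := by
  have h1 : 0 < f q := (hf q).1
  have h2 : 0 < Cond6 q.1 q.2 := Pool.Agent.Y679.Cur.condS_pos q.1 q.2
  unfold cnd
  exact_mod_cast Nat.mul_pos h1 h2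

theorem comp_mono {R R' : ℝ} (hR : R ≤ R') {q : ℤ × ℤ} (h : HasCompanion R q) : HasCompanion R' q := by
  obtain ⟨A₀, B₀, p, h1, h2, h3⟩ := h
  exact ⟨A₀, B₀, p, h1, h2.trans hR, h3⟩

theorem result (f : ℤ × ℤ → ℕ) (hf : Factor f) : ∃ ν ρ : ℝ, 0 < ν ∧ ν ≤ 1 ∧ 0 < ρ ∧
    ∀ (lam : ℕ → ℝ) (θ : ℝ), Fast lam → θ < 1 → ∀ U : Set ℝ, U.Countable →
    ∃ F : Set ℝ, dimH F ≤ ENNReal.ofReal ((1 - ν) / (1 - θ)) ∧ (θ < ν → volume F = 0) ∧
      ∀ x : ℝ, 1 < x → x ∉ F → ∀ β ∈ U, 0 < β → ∃ n₀ : ℕ, ∀ n : ℕ, n₀ ≤ n → ∀ q : ℤ × ℤ,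
        IsMinimal q.1 q.2 → FullTwoTorsion q.1 q.2 →
          |cnd f q ^ (2 / 3 : ℝ) - β * x ^ lam n| ≤ x ^ (θ * lam n) → ¬ HasCompanion (cnd f q ^ ρ) q := by
  obtain ⟨ν₀, C, hν₀, hC, h⟩ := companions
  obtain ⟨ν', hν', hν1, hmain⟩ := Pool.Agent.V11326.WP.single (T := ℤ × ℤ) (r := 2 / 3) (by norm_num)
    {q : ℤ × ℤ | HasCompanion (cnd f q ^ (6 * ν₀)) q}
    (fun q => IsMinimal q.1 q.2 ∧ FullTwoTorsion q.1 q.2) (fun q => Real.log (cnd f q)) (ν := ν₀ / 2) (C := C)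
    (by positivity)
    (fun X hX => by
      refine (curves_finite hf hX).subset ?_
      rintro q ⟨⟨h1, h2⟩, h3⟩
      exact ⟨h1, h2, (Real.log_le_log_iff (cnd_pos hf q) (by linarith)).1 h3⟩)
    (fun X hX => by
      have hX0 : 0 < X := by linarith
      have hfin : {q : ℤ × ℤ | q ∈ Curves f X ∧ HasCompanion (X ^ (6 * ν₀)) q}.Finite :=
        (curves_finite hf hX).subset fun q hq => hq.1
      have hsub : {q : ℤ × ℤ | HasCompanion (cnd f q ^ (6 * ν₀)) q} ∩
          {q : ℤ × ℤ | (IsMinimal q.1 q.2 ∧ FullTwoTorsion q.1 q.2) ∧ Real.log (cnd f q) ≤ Real.log X} ⊆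
          {q : ℤ × ℤ | q ∈ Curves f X ∧ HasCompanion (X ^ (6 * ν₀)) q} := by
        rintro q ⟨h1, ⟨h2, h3⟩, h4⟩
        have h5 : cnd f q ≤ X := (Real.log_le_log_iff (cnd_pos hf q) hX0).1 h4
        exact ⟨⟨h2, h3, h5⟩, comp_mono (Real.rpow_le_rpow (cnd_pos hf q).le h5 (by positivity)) h1⟩
      calc (({q : ℤ × ℤ | HasCompanion (cnd f q ^ (6 * ν₀)) q} ∩
          {q : ℤ × ℤ | (IsMinimal q.1 q.2 ∧ FullTwoTorsion q.1 q.2) ∧ Real.log (cnd f q) ≤ Real.log X}).ncard : ℝ)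
          ≤ ({q : ℤ × ℤ | q ∈ Curves f X ∧ HasCompanion (X ^ (6 * ν₀)) q}.ncard : ℝ) :=
            Nat.cast_le.2 (Set.ncard_le_ncard hsub hfin)
        _ ≤ C * (X ^ (6 * ν₀)) ^ ((1 : ℝ) / 12) * X ^ (2 / 3 - ν₀) :=
            h f hf _ (Real.one_le_rpow hX (by positivity)) X hX
        _ = C * (X ^ (ν₀ / 2) * X ^ (2 / 3 - ν₀)) := by
            rw [← Real.rpow_mul hX0.le, mul_assoc, show 6 * ν₀ * ((1 : ℝ) / 12) = ν₀ / 2 by ring]
        _ = C * X ^ (2 / 3 - ν₀ / 2) := by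
            rw [← Real.rpow_add hX0]
            congr 2
            ring)
  refine ⟨ν', 6 * ν₀, hν', hν1, by positivity, fun lam θ hlam hθ U hU => ?_⟩
  obtain ⟨F, hF, hF0, h3⟩ := hmain lam θ hlam hθ U hU
  refine ⟨F, hF, hF0, fun x hx hxF β hβ hβ0 => ?_⟩
  obtain ⟨n₀, hn⟩ := h3 x hx hxF β hβ hβ0
  refine ⟨n₀, fun n hnn q h4 h5 h6 h7 => hn n hnn q ⟨h4, h5⟩ ?_ h7⟩
  rw [mul_comm (2 / 3 : ℝ), ← Real.rpow_def_of_pos (cnd_pos hf q)]
  exact h6

end Pool.Agent.Results.MP_f5d5f4_nt.ConductorsNearPowers
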