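import Pool.Agent.Results.MP_f5d5f4_nt.UniformInFamilies
import Pool.Agent.H107.EpsZero3
import Pool.Agent.H107.NFCount
import Pool.Agent.V11001.KM.Near
import Pool.Agent.V11001.KM.Zero

/-!
# MP_f5d5f4_nt: no congruences at large primes for ALL members of families with heights near the powers of almost every number

Let `K` be a number field in `ℂ`, `ν n / log n → ∞`, for example `ν n = n`, and let `U` be a countable set of real numbers.
There is a set `E` of real numbers of Hausdorff dimension ZERO such that for ALL `z > 1` outside of `E` the following holds,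
for all `θ < 1`, all rational functions `j = F/G` over `K`, `F`, `G` coprime, with at least two different poles on the
projective line over `K̄`, and all `n ≥ 1`. There is `N` such that for all `b > 0` in `U`, ALL number fields `L` in `ℂ`,
containing `K`, of degree at most `n` over `ℚ`, ALL elliptic curves `E₀` over `L` and all but finitely many of the numbers
`t` in `L` with `|H(t) - b z ^ (ν m)| ≤ z ^ (θ ν m)` for some `m`: no elliptic curve over `L` with invariant `j(t)` has the same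
`p`-division field as `E₀` for any prime `p ≥ N`; in particular none is `p`-congruent to `E₀`.

The input is the starting result `UniformInFamilies` with `O(X ^ ε)` exceptional `t` of height at most `X`.
-/

set_option autoImplicit false

open WeierstrassCurve NumberField Polynomial

namespace Pool.Agent.Results.MP_f5d5f4_nt.HeightsNearPowers

open Pool.Agent.V11001.KM (Fast Near)
open Pool.Agent.Results.MP_f5d5f4_nt.UniformInFamilies (Companion TwoPoles jInvariant)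

/-- **Theorem.** `TwoPoles K F G`: `F/G` has two different poles. `Companion N A₀ B₀ j`: `j` is the invariant of an elliptic
curve over `L` which for some prime `p ≥ N` has the same `p`-division field as `y² = x³ + A₀x + B₀`. `Height.mulHeight₁` is
the (relative) height of `t` in `L`. `Near ν θ b z y`: `|y - b z ^ (ν m)| ≤ z ^ (θ ν m)` for some `m`. -/
theorem result (K : Type) [Field K] [NumberField K] (σ : K →+* ℂ) (ν : ℕ → ℝ) (hν : Fast ν) (U : Set ℝ)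
    (hU : U.Countable) :
    ∃ E : Set ℝ, dimH E = 0 ∧ ∀ z : ℝ, 1 < z → z ∉ E → ∀ θ : ℝ, θ < 1 →
      ∀ F G : K[X], IsCoprime F G → G ≠ 0 → TwoPoles K F G → ∀ n : ℕ, ∃ N : ℕ, ∀ b ∈ U, 0 < b →
        ∀ (L : IntermediateField ℚ ℂ) [NumberField L] (τ : K →+* L),
          (∀ x, ((τ x : L) : ℂ) = σ x) → Module.finrank ℚ L ≤ n →
          ∀ A₀ B₀ : L, 4 * A₀ ^ 3 + 27 * B₀ ^ 2 ≠ 0 →
          {t : L | (G.map τ).eval t ≠ 0 ∧ Companion N A₀ B₀ ((F.map τ).eval t / (G.map τ).eval t) ∧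
            Near ν θ b z (Height.mulHeight₁ t)}.Finite := by
  have hK := Pool.Agent.H107.NF.countable_nf K
  have hKX := Pool.Agent.H107.ME.countable_poly K
  -- the fields, with the embedding of `K`
  let I : Type := {L : IntermediateField ℚ ℂ // NumberField L ∧ ∀ x : K, σ x ∈ L}
  have hI : Countable I := (Pool.Agent.H107.ME.countable_fields.mono fun L hL => hL.1).to_subtype
  have hnf : ∀ i : I, NumberField i.1 := fun i => i.2.1
  have hci : ∀ i : I, Countable i.1 := fun i => Pool.Agent.H107.NF.countable_nf i.1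
  let τ₀ : ∀ i : I, K →+* i.1 := fun i => RingHom.codRestrict σ i.1 i.2.2
  -- the curves
  let J : Type := Σ i : I, {AB : i.1 × i.1 // 4 * AB.1 ^ 3 + 27 * AB.2 ^ 2 ≠ 0}
  have hJ : Countable J := inferInstance
  let Q : Type := {FG : K[X] × K[X] // IsCoprime FG.1 FG.2 ∧ FG.2 ≠ 0 ∧ TwoPoles K FG.1 FG.2} × ℕ
  have hQ : Countable Q := inferInstance
  have hres : ∀ (q : Q) (j : ℕ), ∃ N : ℕ, ∀ i : J, ∃ C : ℝ, ∀ X : ℝ, 1 ≤ X →
      {t : i.1.1 | (Module.finrank ℚ i.1.1 ≤ q.2 ∧ (q.1.1.2.map (τ₀ i.1)).eval t ≠ 0 ∧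
        Companion N i.2.1.1 i.2.1.2 ((q.1.1.1.map (τ₀ i.1)).eval t / (q.1.1.2.map (τ₀ i.1)).eval t)) ∧
        Height.mulHeight₁ t ≤ X}.Finite ∧
      ({t : i.1.1 | (Module.finrank ℚ i.1.1 ≤ q.2 ∧ (q.1.1.2.map (τ₀ i.1)).eval t ≠ 0 ∧
        Companion N i.2.1.1 i.2.1.2 ((q.1.1.1.map (τ₀ i.1)).eval t / (q.1.1.2.map (τ₀ i.1)).eval t)) ∧
        Height.mulHeight₁ t ≤ X}.ncard : ℝ) ≤ C * X ^ (1 / ((j : ℝ) + 1)) := by
    intro q j
    obtain ⟨N, C, hC⟩ := Pool.Agent.Results.MP_f5d5f4_nt.UniformInFamilies.result K q.1.1.1 q.1.1.2 q.1.2.1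
      q.1.2.2.1 q.1.2.2.2 q.2 (1 / ((j : ℝ) + 1)) (by positivity)
    refine ⟨N, fun i => ?_⟩
    obtain ⟨i, ⟨⟨A₀, B₀⟩, h₀⟩⟩ := i
    refine ⟨|C| * (Height.mulHeight₁ (jInvariant A₀ B₀)) ^ (1 / ((j : ℝ) + 1)), fun X hX => ?_⟩
    have hH : (1 : ℝ) ≤ Height.mulHeight₁ (jInvariant A₀ B₀) := Height.one_le_mulHeight₁ _
    have hX0 : (0 : ℝ) ≤ X ^ (1 / ((j : ℝ) + 1)) := Real.rpow_nonneg (by linarith) _
    have hH0 : (0 : ℝ) ≤ (Height.mulHeight₁ (jInvariant A₀ B₀)) ^ (1 / ((j : ℝ) + 1)) :=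
      Real.rpow_nonneg (by linarith) _
    by_cases hn : Module.finrank ℚ i.1 ≤ q.2
    · letI : Algebra K i.1 := (τ₀ i).toAlgebra
      obtain ⟨g1, g2⟩ := hC i.1 hn A₀ B₀ h₀ X hX
      have hEq : {t : i.1 | (Module.finrank ℚ i.1 ≤ q.2 ∧ (q.1.1.2.map (τ₀ i)).eval t ≠ 0 ∧
          Companion N A₀ B₀ ((q.1.1.1.map (τ₀ i)).eval t / (q.1.1.2.map (τ₀ i)).eval t)) ∧
          Height.mulHeight₁ t ≤ X} =
          Pool.Agent.Results.MP_f5d5f4_nt.UniformInFamilies.Exceptional K q.1.1.1 q.1.1.2 i.1 N A₀ B₀ X := by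
        ext t
        constructor
        · rintro ⟨⟨_, ht1, ht2⟩, ht3⟩
          exact ⟨ht3, ht1, ht2⟩
        · rintro ⟨ht3, ht1, ht2⟩
          exact ⟨⟨hn, ht1, ht2⟩, ht3⟩
      show Set.Finite {t : i.1 | (Module.finrank ℚ i.1 ≤ q.2 ∧ (q.1.1.2.map (τ₀ i)).eval t ≠ 0 ∧
          Companion N A₀ B₀ ((q.1.1.1.map (τ₀ i)).eval t / (q.1.1.2.map (τ₀ i)).eval t)) ∧
          Height.mulHeight₁ t ≤ X} ∧ (Set.ncard {t : i.1 | (Module.finrank ℚ i.1 ≤ q.2 ∧
          (q.1.1.2.map (τ₀ i)).eval t ≠ 0 ∧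
          Companion N A₀ B₀ ((q.1.1.1.map (τ₀ i)).eval t / (q.1.1.2.map (τ₀ i)).eval t)) ∧
          Height.mulHeight₁ t ≤ X} : ℝ) ≤ _
      rw [hEq]
      refine ⟨g1, g2.trans ?_⟩
      rw [Real.mul_rpow (by linarith) (by linarith)]
      calc C * (X ^ (1 / ((j : ℝ) + 1)) * Height.mulHeight₁ (jInvariant A₀ B₀) ^ (1 / ((j : ℝ) + 1))) ≤
            |C| * (X ^ (1 / ((j : ℝ) + 1)) * Height.mulHeight₁ (jInvariant A₀ B₀) ^ (1 / ((j : ℝ) + 1))) :=
            mul_le_mul_of_nonneg_right (le_abs_self C) (mul_nonneg hX0 hH0)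
        _ = _ := by ring
    · have hEq : {t : i.1 | (Module.finrank ℚ i.1 ≤ q.2 ∧ (q.1.1.2.map (τ₀ i)).eval t ≠ 0 ∧
          Companion N A₀ B₀ ((q.1.1.1.map (τ₀ i)).eval t / (q.1.1.2.map (τ₀ i)).eval t)) ∧
          Height.mulHeight₁ t ≤ X} = ∅ := by
        ext t
        constructor
        · rintro ⟨⟨h, _⟩, _⟩
          exact absurd h hn
        · intro h
          exact absurd h (Set.notMem_empty _)
      show Set.Finite {t : i.1 | (Module.finrank ℚ i.1 ≤ q.2 ∧ (q.1.1.2.map (τ₀ i)).eval t ≠ 0 ∧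
          Companion N A₀ B₀ ((q.1.1.1.map (τ₀ i)).eval t / (q.1.1.2.map (τ₀ i)).eval t)) ∧
          Height.mulHeight₁ t ≤ X} ∧ (Set.ncard {t : i.1 | (Module.finrank ℚ i.1 ≤ q.2 ∧
          (q.1.1.2.map (τ₀ i)).eval t ≠ 0 ∧
          Companion N A₀ B₀ ((q.1.1.1.map (τ₀ i)).eval t / (q.1.1.2.map (τ₀ i)).eval t)) ∧
          Height.mulHeight₁ t ≤ X} : ℝ) ≤ _
      rw [hEq]
      refine ⟨Set.finite_empty, ?_⟩
      rw [Set.ncard_empty]
      push_cast
      exact mul_nonneg (mul_nonneg (abs_nonneg C) hH0) hX0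
  choose N hN using hres
  obtain ⟨E, h1, h2⟩ := Pool.Agent.V11001.KM.zero_family (T := Σ i : I, i.1) (Q := Q) (J := J)
    (fun p => Height.mulHeight₁ p.2) hν U hU
    (fun q j i => Sigma.mk i.1 '' {t : i.1.1 | Module.finrank ℚ i.1.1 ≤ q.2 ∧ (q.1.1.2.map (τ₀ i.1)).eval t ≠ 0 ∧
        Companion (N q j) i.2.1.1 i.2.1.2 ((q.1.1.1.map (τ₀ i.1)).eval t / (q.1.1.2.map (τ₀ i.1)).eval t)})
    (fun q j i => by
      obtain ⟨C, hC⟩ := hN q j i
      refine ⟨C, fun X hX => ?_⟩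
      obtain ⟨g1, g2⟩ := hC X hX
      have heq : {p : Σ i : I, i.1 | p ∈ Sigma.mk i.1 '' {t : i.1.1 | Module.finrank ℚ i.1.1 ≤ q.2 ∧
          (q.1.1.2.map (τ₀ i.1)).eval t ≠ 0 ∧
          Companion (N q j) i.2.1.1 i.2.1.2 ((q.1.1.1.map (τ₀ i.1)).eval t / (q.1.1.2.map (τ₀ i.1)).eval t)} ∧
          Height.mulHeight₁ p.2 ≤ X} =
          Sigma.mk i.1 '' {t : i.1.1 | (Module.finrank ℚ i.1.1 ≤ q.2 ∧ (q.1.1.2.map (τ₀ i.1)).eval t ≠ 0 ∧
          Companion (N q j) i.2.1.1 i.2.1.2 ((q.1.1.1.map (τ₀ i.1)).eval t / (q.1.1.2.map (τ₀ i.1)).eval t)) ∧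
          Height.mulHeight₁ t ≤ X} := by
        ext p
        constructor
        · rintro ⟨⟨t, ht, rfl⟩, hX⟩
          exact ⟨t, ⟨ht, hX⟩, rfl⟩
        · rintro ⟨t, ⟨ht, hX⟩, rfl⟩
          exact ⟨⟨t, ht, rfl⟩, hX⟩
      rw [heq]
      refine ⟨g1.image _, ?_⟩
      rw [Set.ncard_image_of_injective _ sigma_mk_injective]
      exact g2)
  refine ⟨E, h1, fun z hz hzE θ hθ F G hFG hG hp n => ?_⟩
  obtain ⟨j, hj⟩ := h2 z hz hzE θ hθ (⟨(F, G), hFG, hG, hp⟩, n)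
  refine ⟨N (⟨(F, G), hFG, hG, hp⟩, n) j, fun b hb hb0 L hL τ hτ hLn A₀ B₀ h₀ => ?_⟩
  have hmem : ∀ x : K, σ x ∈ L := fun x => by
    rw [← hτ x]
    exact (τ x).2
  have hττ : τ = τ₀ ⟨L, hL, hmem⟩ := by
    ext x
    rw [hτ x]
    rfl
  have h3 := hj b hb hb0 ⟨⟨L, hL, hmem⟩, ⟨(A₀, B₀), h₀⟩⟩
  have hinj : Function.Injective (fun t : L => (Sigma.mk (⟨L, hL, hmem⟩ : I) t : Σ i : I, i.1)) :=
    fun s t h => eq_of_heq (Sigma.mk.inj h).2
  refine (h3.preimage hinj.injOn).subset ?_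
  rintro t ⟨ht1, ht2, ht3⟩
  rw [hττ] at ht1 ht2
  exact ⟨⟨t, ⟨hLn, ht1, ht2⟩, rfl⟩, ht3⟩

end Pool.Agent.Results.MP_f5d5f4_nt.HeightsNearPowers
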