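import Mathlib
import Pool.Agent.Results.MP_f5d5f4_nt.UniformInFamilies
import Pool.Agent.Y673.CB.Count2
import Pool.Agent.H164.NA.Core

/-!
# No congruences near typical points of a one-parameter family, uniformly in the second curve

Let `K` be a number field and `j = F/G` a rational function over `K` with at least two different poles (a one-parameter
family of elliptic curves and all their twists), `n ≥ 1`, `A ≥ 0` and `ε > 0`. There is `N` such that for every extension
`L` of `K` of degree at most `n` over `ℚ` and almost every point `z` of the real space `L_ℝ = L ⊗ ℝ` the following holds for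
all `σ > A + ε`: for all but finitely many `t ∈ L` with `|t - z|_v ≤ H(t) ^ (-σ)` at all archimedean places (`H` the absolute
height; by Dirichlet's theorem there are infinitely many such `t` if `σ < 2`) there are NO prime `p ≥ N`, NO elliptic curve
`E` over `L` with `j(E) = F(t)/G(t)` and NO elliptic curve `E₀` over `L`, of whatever height, whose invariant is integral at
the primes not dividing some natural number `a ≤ H_L(t) ^ A`, such that `E` and `E₀` have the same `p`-division field.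
For `A < 2` this is not empty, and `A` can be any number less than two; `A = 0` contains all curves `E₀` with potentially
good reduction everywhere, and every fixed `E₀` is contained in the case of any `A > 0`.
-/

set_option autoImplicit false

namespace Pool.Agent.Results.MP_f5d5f4_nt.NearTypicalPoints

open NumberField MeasureTheory Polynomial IsDedekindDomain
open Pool.Agent.Results.MP_f5d5f4_nt.UniformInFamilies (Companion jInvariant TwoPoles)

section Defs

/-- the absolute multiplicative height -/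
noncomputable def H {L : Type} [Field L] [NumberField L] (c : L) : ℝ :=
  Real.exp (Height.logHeight₁ c / Module.finrank ℚ L)

open scoped Classical in
/-- `c` is within `H(c) ^ (-σ)` of the point `z` of the real space of `L`, at every archimedean place -/
def Near {L : Type} [Field L] [NumberField L] (σ : ℝ) (z : mixedEmbedding.mixedSpace L) (c : L) : Prop :=
  dist (mixedEmbedding L c) z ≤ H c ^ (-σ)

/-- `j` is integral at all primes of `L` not dividing `a` -/
def IntegralOutside {L : Type} [Field L] [NumberField L] (a : ℕ) (j : L) : Prop :=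
  ∀ v : HeightOneSpectrum (𝓞 L), v.valuation L (a : L) = 1 → v.valuation L j ≤ 1

/-- The `t ∈ L`, `G(t) ≠ 0`, for which there are an elliptic curve `E₀ : y² = x³ + A₀ x + B₀` over `L` whose invariant is
integral at the primes not dividing some `a ≤ H_L(t) ^ A`, an elliptic curve `E` over `L` of invariant `F(t)/G(t)` and a prime
`p ≥ N` such that `E` and `E₀` have the same `p`-division field. -/
def Exceptional (K : Type) [Field K] (F G : K[X]) (L : Type) [Field L] [NumberField L] [Algebra K L] (N : ℕ) (A : ℝ) :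
    Set L :=
  {t | (G.map (algebraMap K L)).eval t ≠ 0 ∧ ∃ a : ℕ, 1 ≤ a ∧ (a : ℝ) ≤ (Height.mulHeight₁ t) ^ A ∧
    ∃ A₀ B₀ : L, 4 * A₀ ^ 3 + 27 * B₀ ^ 2 ≠ 0 ∧ IntegralOutside a (jInvariant A₀ B₀) ∧
      Companion N A₀ B₀ ((F.map (algebraMap K L)).eval t / (G.map (algebraMap K L)).eval t)}

/-- the same for a family over `ℚ` -/
def ExceptionalQ (F G : ℚ[X]) (L : Type) [Field L] [NumberField L] (N : ℕ) (A : ℝ) : Set L := Exceptional ℚ F G L N A

end Defs

section Aux

open Pool.Agent.Y673.Loc Pool.Agent.Y673.DK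

/-- the condition depends only on the primes dividing `a` -/
lemma pj_nat {L : Type} [Field L] [NumberField L] {j₀ j : L} {N a : ℕ} (ha : 1 ≤ a) (hint : IntegralOutside a j₀)
    (h : PJ L 6 j₀ N j) : PJ L 6 ((a : L)⁻¹) N j := by
  obtain ⟨p, hp, hN, hv⟩ := h
  refine ⟨p, hp, hN, fun v h6 hG hj => hv v h6 ?_ hj⟩
  have ha0 : (a : L) ≠ 0 := by exact_mod_cast (by omega : a ≠ 0)
  have hva0 : v.valuation L (a : L) ≠ 0 := (Valuation.ne_zero_iff _).2 ha0
  have h1 : v.valuation L (a : L) ≤ 1 := by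
    have e : (a : L) = algebraMap (𝓞 L) L (a : 𝓞 L) := (map_natCast (algebraMap (𝓞 L) L) a).symm
    rw [e]
    exact v.valuation_le_one _
  have h3 : WithZero.log (v.valuation L (a : L)) ≤ 0 := by
    have h4 := (WithZero.log_le_log hva0 one_ne_zero).2 h1
    rwa [WithZero.log_one] at h4
  have h5 : 0 ≤ WithZero.log (v.valuation L (a : L)) := by
    rcases hG with hG | hG
    · exact absurd hG (inv_ne_zero ha0)
    · have h6' : (0 : ℤ) ≤ -WithZero.log (v.valuation L ((a : L)⁻¹)) := hG
      rw [map_inv₀, WithZero.log_inv] at h6'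
      omega
  have h7 : v.valuation L (a : L) = 1 := by
    have h8 : WithZero.log (v.valuation L (a : L)) = 0 := le_antisymm h3 h5
    rw [← WithZero.exp_log hva0, h8]
    rfl
  have h9 := hint v h7
  by_cases hj0 : j₀ = 0
  · exact Or.inl hj0
  · right
    have hvj : v.valuation L j₀ ≠ 0 := (Valuation.ne_zero_iff _).2 hj0
    have h10 := (WithZero.log_le_log hvj one_ne_zero).2 h9
    rw [WithZero.log_one] at h10
    show (0 : ℤ) ≤ -WithZero.log (v.valuation L j₀)
    omega

lemma height_inv_nat {L : Type} [Field L] [NumberField L] (a : ℕ) (ha : 1 ≤ a) :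
    Height.mulHeight₁ ((a : L)⁻¹) ≤ (a : ℝ) ^ Module.finrank ℚ L := by
  rw [Height.mulHeight₁_inv]
  have h1 := Pool.Agent.Y673.CB.ht_nat (K := L) a ha
  have ha0 : (0 : ℝ) < a := by exact_mod_cast ha
  have h2 : Real.exp (Height.logHeight₁ (a : L)) ≤ Real.exp (Module.finrank ℚ L * Real.log a) := Real.exp_le_exp.2 h1
  rw [Real.exp_nat_mul, Real.exp_log ha0] at h2
  refine le_trans (le_of_eq ?_) h2
  rw [Height.logHeight₁_eq_log_mulHeight₁, Real.exp_log]
  exact lt_of_lt_of_le one_pos (Height.one_le_mulHeight₁ _)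

/-- the library count, in one statement for the two kinds of families -/
lemma base (K : Type) [Field K] [NumberField K] (F G : K[X]) (hFG : IsCoprime F G) (hG : G ≠ 0) (hpoles : TwoPoles K F G)
    (n : ℕ) {ε : ℝ} (hε : 0 < ε) : ∃ (N : ℕ) (C : ℝ), 0 < C ∧
    ∀ (L : Type) [Field L] [NumberField L] [Algebra K L], Module.finrank ℚ L ≤ n →
      ∀ (j₀ : L) (X : ℝ), 1 ≤ X → ∀ E : Finset L, (∀ t ∈ E, Height.mulHeight₁ t ≤ X ∧
        (G.map (algebraMap K L)).eval t ≠ 0 ∧
        PJ L 6 j₀ N ((F.map (algebraMap K L)).eval t / (G.map (algebraMap K L)).eval t)) →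
      (E.card : ℝ) ≤ C * (X * Height.mulHeight₁ j₀) ^ ε := by
  rcases hpoles with ⟨x, y, hxy, hx, hy⟩ | ⟨h1, h2⟩
  · exact rational_twoJ K 6 (by norm_num) F G hFG hG x y hxy hx hy n hε
  · exact rational_infJ K 6 (by norm_num) F G hFG h1 h2 n hε

lemma count (K : Type) [Field K] [NumberField K] (F G : K[X]) (hFG : IsCoprime F G) (hG : G ≠ 0) (hpoles : TwoPoles K F G)
    (n : ℕ) {A ε : ℝ} (hA : 0 ≤ A) (hε : 0 < ε) : ∃ (N : ℕ) (C : ℝ), 0 < C ∧
    ∀ (L : Type) [Field L] [NumberField L] [Algebra K L], Module.finrank ℚ L ≤ n → ∀ X : ℝ, 1 ≤ X →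
      {t : L | t ∈ Exceptional K F G L N A ∧ Height.mulHeight₁ t ≤ X}.Finite ∧
        ({t : L | t ∈ Exceptional K F G L N A ∧ Height.mulHeight₁ t ≤ X}.ncard : ℝ) ≤ C * X ^ (A + ε) := by
  classical
  have hnA : 0 < 1 + n * A := by positivity
  obtain ⟨N, C, hC, h⟩ := base K F G hFG hG hpoles n (ε := ε / (1 + n * A)) (by positivity)
  refine ⟨max N (13 + 8 * n), C, hC, fun L _ _ _ hL X hX => ?_⟩
  refine Pool.Agent.Y673.Cnt.ncard_le_of _ _ fun E hE => ?_
  have hX0 : 0 < X := by linarith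
  set M : ℕ := ⌊X ^ A⌋₊ with hM
  have hMle : (M : ℝ) ≤ X ^ A := Nat.floor_le (by positivity)
  set P : ℕ → L → Prop := fun a t =>
    PJ L 6 ((a : L)⁻¹) N ((F.map (algebraMap K L)).eval t / (G.map (algebraMap K L)).eval t) with hP
  have hcover : E ⊆ (Finset.Icc 1 M).biUnion fun a => E.filter (P a) := by
    intro t ht
    obtain ⟨⟨h1, a, ha1, ha2, A₀, B₀, h3, h4, h5⟩, h6⟩ := hE (Finset.mem_coe.2 ht)
    obtain ⟨A', B', g1, g2, p, g3, g4, g5⟩ := h5
    rw [Finset.mem_biUnion]
    refine ⟨a, ?_, ?_⟩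
    · rw [Finset.mem_Icc]
      refine ⟨ha1, Nat.le_floor (ha2.trans ?_)⟩
      exact Real.rpow_le_rpow (by linarith [Height.one_le_mulHeight₁ t]) h6 hA
    · rw [Finset.mem_filter]
      refine ⟨ht, ?_⟩
      have h7 : PJ L 6 (jInvariant A₀ B₀) (13 + 8 * n) (jInvariant A' B') :=
        Pool.Agent.Y673.FM.pj_of hL le_rfl A' B' A₀ B₀ g1 h3 g3 ((le_max_right _ _).trans g4) g5
      have h8 : PJ L 6 (jInvariant A₀ B₀) (max N (13 + 8 * n)) (jInvariant A' B') :=
        Pool.Agent.Y673.FM.pj_of hL (le_max_right _ _) A' B' A₀ B₀ g1 h3 g3 g4 g5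
      obtain ⟨q, q1, q2, q3⟩ := pj_nat ha1 h4 h8
      rw [g2] at q3
      exact ⟨q, q1, (le_max_left _ _).trans q2, q3⟩
  have hone : ∀ a ∈ Finset.Icc 1 M, (((E.filter (P a)).card : ℕ) : ℝ) ≤ C * X ^ ε := by
    intro a ha
    rw [Finset.mem_Icc] at ha
    have ha0 : (0 : ℝ) < a := by exact_mod_cast ha.1
    have h1 := h L hL ((a : L)⁻¹) X hX (E.filter (P a)) (by
      intro t ht
      rw [Finset.mem_filter] at ht
      obtain ⟨g1, g2⟩ := hE (Finset.mem_coe.2 ht.1)
      exact ⟨g2, g1.1, ht.2⟩)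
    refine h1.trans (mul_le_mul_of_nonneg_left ?_ hC.le)
    have hH : Height.mulHeight₁ ((a : L)⁻¹) ≤ X ^ (n * A) := by
      refine (height_inv_nat a ha.1).trans ?_
      have haX : (a : ℝ) ≤ X ^ A := (by exact_mod_cast ha.2 : (a : ℝ) ≤ M).trans hMle
      have hX1 : 1 ≤ X ^ A := Real.one_le_rpow hX hA
      calc (a : ℝ) ^ Module.finrank ℚ L ≤ (X ^ A) ^ Module.finrank ℚ L := pow_le_pow_left₀ ha0.le haX _
        _ ≤ (X ^ A) ^ n := pow_le_pow_right₀ hX1 hL
        _ = X ^ (n * A) := by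
            rw [← Real.rpow_natCast, ← Real.rpow_mul hX0.le, mul_comm]
    have hHpos : 0 < Height.mulHeight₁ ((a : L)⁻¹) := lt_of_lt_of_le one_pos (Height.one_le_mulHeight₁ _)
    calc (X * Height.mulHeight₁ ((a : L)⁻¹)) ^ (ε / (1 + n * A))
        ≤ (X * X ^ (n * A)) ^ (ε / (1 + n * A)) :=
          Real.rpow_le_rpow (by positivity) (mul_le_mul_of_nonneg_left hH hX0.le) (by positivity)
      _ = (X ^ (1 + n * A)) ^ (ε / (1 + n * A)) := by rw [Real.rpow_add hX0, Real.rpow_one]
      _ = X ^ ε := by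
          rw [← Real.rpow_mul hX0.le, mul_div_cancel₀ _ hnA.ne']
  calc (E.card : ℝ) ≤ (((Finset.Icc 1 M).biUnion fun a => E.filter (P a)).card : ℝ) := by
        exact_mod_cast Finset.card_le_card hcover
    _ ≤ ((∑ a ∈ Finset.Icc 1 M, (E.filter (P a)).card : ℕ) : ℝ) := by exact_mod_cast Finset.card_biUnion_le
    _ = ∑ a ∈ Finset.Icc 1 M, ((E.filter (P a)).card : ℝ) := by push_cast; rfl
    _ ≤ ∑ a ∈ Finset.Icc 1 M, C * X ^ ε := Finset.sum_le_sum hone
    _ = M * (C * X ^ ε) := by rw [Finset.sum_const, nsmul_eq_mul, Nat.card_Icc]; simp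
    _ ≤ X ^ A * (C * X ^ ε) := mul_le_mul_of_nonneg_right hMle (by positivity)
    _ = C * X ^ (A + ε) := by rw [Real.rpow_add hX0]; ring

/-- the count with the absolute height -/
lemma count_abs {L : Type} [Field L] [NumberField L] (S : Set L) {C s : ℝ}
    (h : ∀ X : ℝ, 1 ≤ X → {t : L | t ∈ S ∧ Height.mulHeight₁ t ≤ X}.Finite ∧
      ({t : L | t ∈ S ∧ Height.mulHeight₁ t ≤ X}.ncard : ℝ) ≤ C * X ^ s) (hC : 0 < C) :
    ∀ ε : ℝ, 0 < ε → ∃ C : ℝ, ∀ X : ℝ, 1 ≤ X →
      {c : L | c ∈ S ∧ Pool.Agent.H164.NA.H c ≤ X}.Finite ∧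
        ({c : L | c ∈ S ∧ Pool.Agent.H164.NA.H c ≤ X}.ncard : ℝ) ≤ C * X ^ ((Module.finrank ℚ L : ℝ) * s + ε) := by
  intro ε hε
  refine ⟨C, fun X hX => ?_⟩
  have hX0 : 0 < X := by linarith
  obtain ⟨h1, h2⟩ := h (X ^ Module.finrank ℚ L) (one_le_pow₀ hX)
  have heq : {c : L | c ∈ S ∧ Pool.Agent.H164.NA.H c ≤ X} =
      {t : L | t ∈ S ∧ Height.mulHeight₁ t ≤ X ^ Module.finrank ℚ L} := by
    ext c
    have g1 : 0 < Height.mulHeight₁ c := lt_of_lt_of_le one_pos (Height.one_le_mulHeight₁ _)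
    have g2 : Pool.Agent.H164.NA.H c ≤ X ↔ Height.mulHeight₁ c ≤ X ^ Module.finrank ℚ L := by
      rw [Pool.Agent.H164.NA.H_le_iff c hX0, Height.logHeight₁_eq_log_mulHeight₁, ← Real.log_pow,
        Real.log_le_log_iff g1 (by positivity)]
    exact and_congr_right fun _ => g2
  rw [heq]
  refine ⟨h1, h2.trans (mul_le_mul_of_nonneg_left ?_ hC.le)⟩
  rw [← Real.rpow_natCast, ← Real.rpow_mul hX0.le]
  exact Real.rpow_le_rpow_of_exponent_le hX (by linarith)

end Aux

open scoped Classical in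
/-- **Theorem.** (1) Let `F/G` be a rational function over a number field `K` with at least two different poles on the
projective line, `n` a natural number, `A ≥ 0` and `ε > 0`. There is `N` such that for every extension `L` of `K` of degree at
most `n` over `ℚ`:
(1a) for almost every `z` in the real space of `L` and all `σ > A + ε` only finitely many `t` in `Exceptional N A` satisfy
`|t - z|_v ≤ H(t) ^ (-σ)` at all archimedean places;
(1b) for every map `φ` from `L` to a metric space and `σ > 0` the points `z` for which infinitely many `t` in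
`Exceptional N A` satisfy `dist (φ t, z) ≤ H(t) ^ (-σ)` form a set of Hausdorff dimension at most `[L : ℚ] (A + ε) / σ`.
(2) If `K = ℚ`: there is `N` such that for almost every real number `z`, for all number fields `L ⊂ ℝ` of degree at most
`n` and all `σ > A + ε`, only finitely many `t ∈ L` in `Exceptional N A` satisfy `|t - z| ≤ H(t) ^ (- [L : ℚ] σ)`; and
infinitely many rational `t` satisfy `|t - z| ≤ H(t) ^ (-σ)` if `σ < 2`. -/
theorem result :
    (∀ (K : Type) [Field K] [NumberField K] (F G : K[X]), IsCoprime F G → G ≠ 0 → TwoPoles K F G →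
      ∀ (n : ℕ) (A ε : ℝ), 0 ≤ A → 0 < ε → ∃ N : ℕ,
        ∀ (L : Type) [Field L] [NumberField L] [Algebra K L], Module.finrank ℚ L ≤ n →
          (∀ᵐ z : mixedEmbedding.mixedSpace L, ∀ σ : ℝ, A + ε < σ →
            {t : L | Near σ z t ∧ t ∈ Exceptional K F G L N A}.Finite) ∧
          ∀ (M : Type) [MetricSpace M] (φ : L → M) (σ : ℝ), 0 < σ →
            dimH {z : M | {t : L | dist (φ t) z ≤ H t ^ (-σ) ∧ t ∈ Exceptional K F G L N A}.Infinite} ≤
              ENNReal.ofReal (Module.finrank ℚ L * (A + ε) / σ)) ∧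
    (∀ (F G : ℚ[X]), IsCoprime F G → G ≠ 0 → TwoPoles ℚ F G →
      ∀ (n : ℕ) (A ε : ℝ), 0 ≤ A → 0 < ε → ∃ N : ℕ,
        ∀ᵐ z : ℝ, (∀ (L : IntermediateField ℚ ℝ) [NumberField L], Module.finrank ℚ L ≤ n → ∀ σ : ℝ, A + ε < σ →
          {t : L | |(t : ℝ) - z| ≤ H t ^ (-(Module.finrank ℚ L * σ)) ∧ t ∈ ExceptionalQ F G L N A}.Finite) ∧
          ∀ σ : ℝ, σ < 2 → {t : ℚ | |(t : ℝ) - z| ≤ H t ^ (-σ)}.Infinite) := by
  refine ⟨?_, ?_⟩
  · intro K _ _ F G hFG hG hpoles n A ε hA hε
    obtain ⟨N, C, hC, h⟩ := count K F G hFG hG hpoles n hA hε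
    refine ⟨N, fun L _ _ _ hL => ⟨?_, ?_⟩⟩
    · have h1 := Pool.Agent.H164.NA.near_space (K := L) {(0 : ℝ)} (fun _ => A + ε) (fun _ => Exceptional K F G L N A)
        (fun _ _ => by positivity) (fun _ _ => count_abs _ (h L hL) hC)
        (fun κ hκ t ht => ⟨0, by simp, ht, le_rfl⟩) (volume : Measure (mixedEmbedding.mixedSpace L))
        (by rw [mixedEmbedding.finrank L]; exact Module.finrank_pos) (fun c : L => mixedEmbedding L c)
      filter_upwards [h1] with z hz σ hσ
      have hn : (0 : ℝ) < Module.finrank ℚ L := Pool.Agent.H164.NA.n_pos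
      exact hz 0 rfl σ (by
        rw [mixedEmbedding.finrank L, mul_div_cancel_left₀ _ hn.ne']
        exact hσ)
    · intro M _ φ σ hσ
      exact Pool.Agent.H164.NA.near_dim (Exceptional K F G L N A) (by positivity) (count_abs _ (h L hL) hC) φ hσ
  · intro F G hFG hG hpoles n A ε hA hε
    obtain ⟨N, C, hC, h⟩ := count ℚ F G hFG hG hpoles n hA hε
    refine ⟨N, ?_⟩
    have h1 := Pool.Agent.H164.NA.near_subfields {(0 : ℝ)} (fun _ => A + ε)
      (fun L _ _ _ => {t : L | Module.finrank ℚ L ≤ n ∧ t ∈ ExceptionalQ F G L N A})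
      (fun _ _ => by positivity) (by
        intro L _ _ κ hκ
        by_cases hL : Module.finrank ℚ L ≤ n
        · have h2 : {t : L | Module.finrank ℚ L ≤ n ∧ t ∈ ExceptionalQ F G L N A} = Exceptional ℚ F G L N A := by
            ext t
            exact ⟨fun g => g.2, fun g => ⟨hL, g⟩⟩
          rw [h2]
          exact count_abs _ (h L hL) hC
        · intro ε' hε'
          refine ⟨0, fun X hX => ?_⟩
          have h2 : {c : L | c ∈ {t : L | Module.finrank ℚ L ≤ n ∧ t ∈ ExceptionalQ F G L N A} ∧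
              Pool.Agent.H164.NA.H c ≤ X} = ∅ := by
            ext t
            simp only [Set.mem_ofPred_eq, Set.mem_empty_iff_false, iff_false]
            rintro ⟨⟨g, -⟩, -⟩
            exact hL g
          rw [h2]
          simp)
      (fun L _ _ κ hκ t ht => ⟨0, by simp, ht, le_rfl⟩) ℝ (volume : Measure ℝ)
      (by rw [Module.finrank_self]; exact one_pos)
    filter_upwards [h1, Pool.Agent.H164.NA.ae_irrational] with z hz hirr
    refine ⟨fun L _ hL σ hσ => ?_, fun σ hσ => Pool.Agent.H164.NA.near_infinite hirr hσ⟩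
    refine (hz L 0 rfl σ (by rw [Module.finrank_self, Nat.cast_one, div_one]; exact hσ)).subset ?_
    rintro t ⟨g1, g2⟩
    exact ⟨g1, hL, g2⟩

end Pool.Agent.Results.MP_f5d5f4_nt.NearTypicalPoints
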